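import Pool.Agent.K3h88.LCM.Stm

/-!
# Brick L3: the ridges
-/

set_option autoImplicit false

namespace Pool.Agent.K3h24.LCM

open Finset Pool.Agent.K3h88.LCM

universe u

variable {V : Type u} [DecidableEq V]

lemma third {ρ Δ τ τ' τ'' : Finset V} (hρ : ρ.card = 3) (hΔ : Δ.card = 5)
    (c : τ.card = 4) (c' : τ'.card = 4) (c'' : τ''.card = 4) (r : ρ ⊆ τ) (r' : ρ ⊆ τ')
    (r'' : ρ ⊆ τ'') (s : τ ⊆ Δ) (s' : τ' ⊆ Δ) (s'' : τ'' ⊆ Δ) (ne : τ' ≠ τ'') :
    τ = τ' ∨ τ = τ'' := by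
  have key : ∀ t : Finset V, t.card = 4 → ρ ⊆ t → ∃ a, a ∉ ρ ∧ t = insert a ρ := by
    intro t ht hr
    have h1 : (t \ ρ).card = 1 := by rw [card_sdiff_of_subset hr]; omega
    obtain ⟨a, ha⟩ := card_eq_one.1 h1
    have ha' : a ∈ t \ ρ := by rw [ha]; exact mem_singleton_self a
    refine ⟨a, (mem_sdiff.1 ha').2, ?_⟩
    have h2 := sdiff_union_of_subset hr
    rw [ha] at h2
    rw [← h2]
    rfl
  obtain ⟨a, ha, rfl⟩ := key τ c r
  obtain ⟨a', ha', rfl⟩ := key τ' c' r'
  obtain ⟨a'', ha'', rfl⟩ := key τ'' c'' r''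
  by_contra hcon
  push Not at hcon
  have h1 : a ≠ a' := fun h => hcon.1 (by rw [h])
  have h2 : a ≠ a'' := fun h => hcon.2 (by rw [h])
  have h3 : a' ≠ a'' := fun h => ne (by rw [h])
  have h4 : ({a, a', a''} : Finset V) ⊆ Δ \ ρ := by
    intro b hb
    simp only [mem_insert, mem_singleton] at hb
    rw [mem_sdiff]
    rcases hb with rfl | rfl | rfl
    · exact ⟨s (mem_insert_self _ _), ha⟩
    · exact ⟨s' (mem_insert_self _ _), ha'⟩
    · exact ⟨s'' (mem_insert_self _ _), ha''⟩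
  have h5 := card_le_card h4
  have h6 : (Δ \ ρ).card = 2 := by
    rw [card_sdiff_of_subset ((subset_insert a ρ).trans s)]
    omega
  have h7 : ({a, a', a''} : Finset V).card = 3 := by
    rw [card_insert_of_notMem, card_insert_of_notMem, card_singleton]
    · simpa using h3
    · simp only [mem_insert, mem_singleton, not_or]
      exact ⟨h1, h2⟩
  omega

lemma two_facets {F : Finset (Finset V)} {τ X Y Z : Finset V} (hτ : τ ∈ tets F 2)
    (hX : X ∈ F) (hY : Y ∈ F) (hZ : Z ∈ F) (sX : τ ⊆ X) (sY : τ ⊆ Y) (sZ : τ ⊆ Z)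
    (ne : X ≠ Y) : Z = X ∨ Z = Y := by
  unfold tets at hτ
  have h2 := (mem_filter.1 hτ).2.2
  by_contra hcon
  push Not at hcon
  have h4 : ({Z, X, Y} : Finset (Finset V)) ⊆ F.filter (fun A => τ ⊆ A) := by
    intro b hb
    simp only [mem_insert, mem_singleton] at hb
    rw [mem_filter]
    rcases hb with rfl | rfl | rfl
    · exact ⟨hZ, sZ⟩
    · exact ⟨hX, sX⟩
    · exact ⟨hY, sY⟩
  have h5 := card_le_card h4
  have h7 : ({Z, X, Y} : Finset (Finset V)).card = 3 := by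
    rw [card_insert_of_notMem, card_insert_of_notMem, card_singleton]
    · simpa using ne
    · simp only [mem_insert, mem_singleton, not_or]
      exact hcon
  omega

/-- graph of the facets around `ρ` -/
def gr (F S : Finset (Finset V)) (ρ : Finset V) : SimpleGraph (Finset V) where
  Adj X Y := X ≠ Y ∧ Adj F S ρ X Y
  symm := by
    constructor
    rintro X Y ⟨h, h1, h2, τ, h3, h4, h5, h6⟩
    exact ⟨h.symm, h2, h1, τ, h3, h4, h6, h5⟩
  loopless := by
    constructor
    rintro X ⟨h, _⟩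
    exact h rfl

lemma reach {F S : Finset (Finset V)} {ρ A B : Finset V} (h : Same F S ρ A B) :
    (gr F S ρ).Reachable A B := by
  induction h with
  | refl => exact SimpleGraph.Reachable.refl _
  | tail _ h2 ih =>
    rename_i b c _
    by_cases hbc : b = c
    · rw [← hbc]; exact ih
    · exact ih.trans (SimpleGraph.Adj.reachable (G := gr F S ρ) ⟨hbc, h2⟩)

lemma path_ind {F S : Finset (Finset V)} {ρ τ0 : Finset V} (hρ : ρ.card = 3)
    (pure : ∀ A ∈ F, A.card = 5) (hS : S ⊆ tets F 2) (h0S : τ0 ∉ S) (h0c : τ0.card = 4)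
    (h0ρ : ρ ⊆ τ0) {X B : Finset V} (h0B : τ0 ⊆ B) (p : (gr F S ρ).Walk X B) (hp : p.IsPath)
    (τp prev : Finset V) (h1 : τp ∈ S) (h2 : ρ ⊆ τp) (h3 : τp ⊆ X) (h4 : τp ⊆ prev)
    (h5 : prev ∈ F) (hX : X ∈ F) (h6 : prev ∉ p.support) :
    ∀ Δ ∈ p.support, ∀ τ : Finset V, τ.card = 4 → ρ ⊆ τ → τ ⊆ Δ →
      τ = τp ∨ τ = τ0 ∨ (τ ∈ S ∧ ∀ Δ' ∈ F, τ ⊆ Δ' → Δ' ∈ p.support) := by
  have cS : ∀ t ∈ S, t.card = 4 := fun t ht => (mem_filter.1 (hS ht)).2.1
  induction p generalizing τp prev with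
  | nil =>
    intro Δ hΔ τ c r s
    rw [SimpleGraph.Walk.support_nil, List.mem_singleton] at hΔ
    subst hΔ
    rcases third hρ (pure _ hX) c (cS _ h1) h0c r h2 h0ρ s h3 h0B
      (fun h => h0S (h ▸ h1)) with h | h
    · exact Or.inl h
    · exact Or.inr (Or.inl h)
  | @cons X Y B h q ih =>
    intro Δ hΔ τ c r s
    have hh : X ≠ Y ∧ Adj F S ρ X Y := h
    obtain ⟨hXY, hX', hY', τ', ht1, ht2, ht3, ht4⟩ := hh
    rw [SimpleGraph.Walk.cons_isPath_iff] at hp
    rw [SimpleGraph.Walk.support_cons, List.mem_cons, not_or] at h6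
    have hYs : Y ∈ q.support := SimpleGraph.Walk.start_mem_support q
    have hne : τp ≠ τ' := by
      rintro rfl
      rcases two_facets (hS h1) hX' h5 hY' h3 h4 ht4 (fun h => h6.1 h.symm) with h | h
      · exact hXY h.symm
      · exact h6.2 (h ▸ hYs)
    have hτ' : ∀ Δ' ∈ F, τ' ⊆ Δ' → Δ' ∈ (SimpleGraph.Walk.cons h q).support := by
      intro Δ' h7 h8
      rw [SimpleGraph.Walk.support_cons, List.mem_cons]
      rcases two_facets (hS ht1) hX' hY' h7 ht3 ht4 h8 hXY with h | h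
      · exact Or.inl h
      · exact Or.inr (h ▸ hYs)
    rw [SimpleGraph.Walk.support_cons, List.mem_cons] at hΔ
    rcases hΔ with rfl | hΔ
    · rcases third hρ (pure _ hX) c (cS _ h1) (cS _ ht1) r h2 ht2 s h3 ht3 hne with h | h
      · exact Or.inl h
      · subst h
        exact Or.inr (Or.inr ⟨ht1, hτ'⟩)
    · rcases ih h0B hp.1 τ' X ht1 ht2 ht4 ht3 hX' hY' hp.2 Δ hΔ τ c r s with h | h | h
      · subst h
        exact Or.inr (Or.inr ⟨ht1, hτ'⟩)
      · exact Or.inr (Or.inl h)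
      · refine Or.inr (Or.inr ⟨h.1, fun Δ' h7 h8 => ?_⟩)
        rw [SimpleGraph.Walk.support_cons, List.mem_cons]
        exact Or.inr (h.2 Δ' h7 h8)

/-- all tetrahedra around the ridge -/
lemma claim {F T : Finset (Finset V)} {k : ℕ} {σ ρ : Fin k → Finset V} (g : GD F T k σ ρ)
    (j : Fin k) (Δ : Finset V) (hΔ : Δ ∈ F) (τ : Finset V) (c : τ.card = 4) (r : ρ j ⊆ τ)
    (s : τ ⊆ Δ) : τ = σ j ∨ τ ∈ T ∪ (univ.filter (fun i => i < j)).image σ := by
  set S := T ∪ (univ.filter (fun i => i < j)).image σ with hSdef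
  have hS : S ⊆ tets F 2 := by
    intro t ht
    rw [hSdef, mem_union] at ht
    rcases ht with ht | ht
    · exact g.Tin ht
    · obtain ⟨i, _, rfl⟩ := mem_image.1 ht
      exact g.σin i
  have h0S : σ j ∉ S := by
    intro ht
    rw [hSdef, mem_union] at ht
    rcases ht with ht | ht
    · exact g.σT j ht
    · obtain ⟨i, hi, hij⟩ := mem_image.1 ht
      have := g.σinj hij
      subst this
      exact absurd (mem_filter.1 hi).2 (lt_irrefl _)
  have cS : ∀ t ∈ S, t.card = 4 := fun t ht => (mem_filter.1 (hS ht)).2.1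
  have h0 := mem_filter.1 (g.σin j)
  obtain ⟨A, B, hAB, hf⟩ := card_eq_two.1 h0.2.2
  have hA : A ∈ F ∧ σ j ⊆ A := by
    rw [← mem_filter (s := F) (p := fun A => σ j ⊆ A), hf]; simp
  have hB : B ∈ F ∧ σ j ⊆ B := by
    rw [← mem_filter (s := F) (p := fun A => σ j ⊆ A), hf]; simp
  obtain ⟨w⟩ := reach (g.loc j A hA.1 B hB.1 hA.2 hB.2)
  classical
  obtain ⟨p, hp⟩ := w.toPath
  -- the properties of the path
  have main : (∀ Δ ∈ p.support, ∀ τ : Finset V, τ.card = 4 → ρ j ⊆ τ → τ ⊆ Δ →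
      τ = σ j ∨ (τ ∈ S ∧ ∀ Δ' ∈ F, τ ⊆ Δ' → Δ' ∈ p.support)) := by
    cases p with
    | nil => exact absurd rfl hAB
    | @cons _ Y _ h q =>
      have hh : A ≠ Y ∧ Adj F S (ρ j) A Y := h
      obtain ⟨hXY, hX', hY', τ', ht1, ht2, ht3, ht4⟩ := hh
      rw [SimpleGraph.Walk.cons_isPath_iff] at hp
      have hYs : Y ∈ q.support := SimpleGraph.Walk.start_mem_support q
      have hτ' : ∀ Δ' ∈ F, τ' ⊆ Δ' → Δ' ∈ (SimpleGraph.Walk.cons h q).support := by
        intro Δ' h7 h8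
        rw [SimpleGraph.Walk.support_cons, List.mem_cons]
        rcases two_facets (hS ht1) hX' hY' h7 ht3 ht4 h8 hXY with h | h
        · exact Or.inl h
        · exact Or.inr (h ▸ hYs)
      intro Δ hΔ τ c r s
      rw [SimpleGraph.Walk.support_cons, List.mem_cons] at hΔ
      rcases hΔ with rfl | hΔ
      · rcases third (g.ρc j) (g.pure _ hA.1) c h0.2.1 (cS _ ht1) r (g.ρσ j) ht2 s hA.2 ht3
          (fun h => h0S (h ▸ ht1)) with h | h
        · exact Or.inl h
        · subst h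
          exact Or.inr ⟨ht1, hτ'⟩
      · rcases path_ind (g.ρc j) g.pure hS h0S h0.2.1 (g.ρσ j) hB.2 q hp.1 τ' A ht1 ht2 ht4 ht3
          hA.1 hY' hp.2 Δ hΔ τ c r s with h | h | h
        · subst h
          exact Or.inr ⟨ht1, hτ'⟩
        · exact Or.inl h
        · refine Or.inr ⟨h.1, fun Δ' h7 h8 => ?_⟩
          rw [SimpleGraph.Walk.support_cons, List.mem_cons]
          exact Or.inr (h.2 Δ' h7 h8)
  have hAs : A ∈ p.support := SimpleGraph.Walk.start_mem_support p
  have hBs : B ∈ p.support := SimpleGraph.Walk.end_mem_support p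
  -- all facets around the ridge are on the path
  have all : ∀ D, Same F (tets F 2) (ρ j) A D → D ∈ p.support := by
    intro D hD
    induction hD with
    | refl => exact hAs
    | tail _ h2 ih =>
      rename_i b c' _
      obtain ⟨hb, hc, t, ht1, ht2, ht3, ht4⟩ := h2
      rcases main b ih t (mem_filter.1 ht1).2.1 ht2 ht3 with h | h
      · subst h
        rcases two_facets (g.σin j) hA.1 hB.1 hc hA.2 hB.2 ht4 hAB with h | h
        · rw [h]; exact hAs
        · rw [h]; exact hBs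
      · exact h.2 c' hc ht4
  have hρne : (ρ j).Nonempty := by
    rw [← card_pos, g.ρc j]; norm_num
  have hΔs := all Δ (g.res (ρ j) hρne A hA.1 Δ hΔ ((g.ρσ j).trans hA.2) (r.trans s))
  rcases main Δ hΔs τ c r s with h | h
  · exact Or.inl h
  · exact Or.inr h.1

theorem l3 : StmL3.{u} := by
  intro V _ F T k σ ρ g
  constructor
  · intro i j hij
    have h0 := mem_filter.1 (g.σin i)
    obtain ⟨A, B, hAB, hf⟩ := card_eq_two.1 h0.2.2
    have hA : A ∈ F ∧ σ i ⊆ A := by
      rw [← mem_filter (s := F) (p := fun A => σ i ⊆ A), hf]; simp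
    rcases claim g j A hA.1 (σ i) h0.2.1 hij hA.2 with h | h
    · exact (g.σinj h).le
    · rw [mem_union] at h
      rcases h with h | h
      · exact absurd h (g.σT i)
      · obtain ⟨l, hl, hli⟩ := mem_image.1 h
        rw [← g.σinj hli]
        exact (mem_filter.1 hl).2.le
  · intro j hj
    unfold faces at hj
    rw [mem_filter, mem_biUnion] at hj
    obtain ⟨⟨τ, hτ, hρ⟩, _⟩ := hj
    rw [mem_powerset] at hρ
    have hτ' := mem_filter.1 hτ
    have hne : (F.filter (fun A => τ ⊆ A)).Nonempty := by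
      rw [← card_pos, hτ'.2.2]; norm_num
    obtain ⟨A, hA⟩ := hne
    rw [mem_filter] at hA
    have hS : ∀ t ∈ T ∪ (univ.filter (fun i => i < j)).image σ, t ∈ tets F 2 := by
      intro t ht
      rw [mem_union] at ht
      rcases ht with ht | ht
      · exact g.Tin ht
      · obtain ⟨i, _, rfl⟩ := mem_image.1 ht
        exact g.σin i
    have h2 : τ ∈ tets F 2 := by
      rcases claim g j A hA.1 τ hτ'.2.1 hρ hA.2 with h | h
      · rw [h]; exact g.σin j
      · exact hS τ h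
    have := (mem_filter.1 h2).2.2
    have := hτ'.2.2
    omega

end Pool.Agent.K3h24.LCM
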