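import Pool.Agent.K3h88.LCM.Stm

/-!
# Brick L8: nonsingular systems over the unit quaternions
-/

set_option autoImplicit false
set_option synthInstance.maxHeartbeats 400000

namespace Pool.Agent.K3h24.LCM

open Finset Pool.Agent.K3h88.LCM Quaternion

/-- continuous maps with parities `A` -/
def Par {n : ℕ} (A : Matrix (Fin n) (Fin n) (ZMod 2)) (P : (Fin n → G) → Fin n → G) : Prop :=
  Continuous P ∧
    ∀ x k i, P (Function.update x k (-(x k))) i = if A i k = 1 then -(P x i) else P x i

/-- the weak conclusion -/
def SS {n : ℕ} (A : Matrix (Fin n) (Fin n) (ZMod 2)) : Prop :=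
  ∀ P, Par A P → ∃ x, ∀ i, P x i = 1 ∨ P x i = -1

lemma SS_one (h9 : StmL9) (n : ℕ) : SS (1 : Matrix (Fin n) (Fin n) (ZMod 2)) := by
  intro P hP
  refine h9 n P hP.1 fun x k i => ?_
  rw [hP.2 x k i]
  by_cases h : i = k
  · subst h
    simp
  · rw [Matrix.one_apply_ne h, if_neg h, if_neg (by decide)]

lemma zmod2 (c : ZMod 2) : c = 0 ∨ c = 1 := by
  revert c; decide

lemma nmul (a b : G) : -a * b = -(a * b) := by
  apply Subtype.ext
  show (-(a : ℍ[ℝ])) * b = -((a : ℍ[ℝ]) * b)
  exact neg_mul _ _

lemma muln (a b : G) : a * -b = -(a * b) := by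
  apply Subtype.ext
  show (a : ℍ[ℝ]) * (-(b : ℍ[ℝ])) = -((a : ℍ[ℝ]) * b)
  exact mul_neg _ _

lemma SS_transvec {n : ℕ} (A : Matrix (Fin n) (Fin n) (ZMod 2)) (hA : SS A) (i j : Fin n)
    (hij : i ≠ j) : SS (Matrix.transvection i j (1 : ZMod 2) * A) := by
  intro P hP
  have row : ∀ k, (Matrix.transvection i j (1 : ZMod 2) * A) i k = A i k + A j k := by
    intro k
    rw [Matrix.transvection_mul_apply_same, one_mul]
  have row2 : ∀ l k, l ≠ i → (Matrix.transvection i j (1 : ZMod 2) * A) l k = A l k := by
    intro l k hl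
    rw [Matrix.transvection_mul_apply_of_ne _ _ _ _ hl]
  have hP' : Par A (fun x l => if l = i then P x i * P x j else P x l) := by
    constructor
    · refine continuous_pi fun l => ?_
      have hc : ∀ l, Continuous fun x => P x l := fun l => (continuous_apply l).comp hP.1
      by_cases h : l = i
      · simp only [h, if_true]
        exact (hc i).mul (hc j)
      · simp only [if_neg h]
        exact hc l
    · intro x k l
      by_cases h : l = i
      · subst h
        simp only [if_true]
        rw [hP.2 x k l, hP.2 x k j, row, row2 j k hij.symm]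
        rcases zmod2 (A l k) with h1 | h1 <;> rcases zmod2 (A j k) with h2 | h2 <;>
          rw [h1, h2]
        · simp
        · rw [if_pos (by decide), if_pos rfl, if_neg (by decide), nmul, muln, neg_neg]
        · rw [if_pos (by decide), if_neg (by decide), if_pos rfl, nmul]
        · rw [if_neg (by decide), if_pos rfl, if_pos rfl, muln]
      · simp only [if_neg h]
        rw [hP.2 x k l, row2 l k h]
  obtain ⟨x, hx⟩ := hA _ hP'
  refine ⟨x, fun l => ?_⟩
  have hj := hx j
  simp only [if_neg hij.symm] at hj
  by_cases h : l = i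
  · subst h
    have hi := hx l
    simp only [if_true] at hi
    rcases hj with hj | hj <;> rw [hj] at hi
    · simpa using hi
    · rw [muln, mul_one, neg_eq_iff_eq_neg, neg_inj] at hi
      exact hi.symm
  · have := hx l
    simp only [if_neg h] at this
    exact this

lemma SS_all (h9 : StmL9) {n : ℕ} (A : Matrix (Fin n) (Fin n) (ZMod 2)) (hA : A.det ≠ 0) :
    SS A := by
  have key : ∀ B : Matrix (Fin n) (Fin n) (ZMod 2), SS B → SS (A * B) := by
    refine Matrix.diagonal_transvection_induction_of_det_ne_zero
      (fun M => ∀ B : Matrix (Fin n) (Fin n) (ZMod 2), SS B → SS (M * B)) A hA ?_ ?_ ?_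
    · intro D hD B hB
      have : D = fun _ => 1 := by
        funext i
        rcases zmod2 (D i) with h | h
        · exfalso
          apply hD
          rw [Matrix.det_diagonal]
          exact prod_eq_zero (mem_univ i) h
        · exact h
      rw [this, Matrix.diagonal_one, one_mul]
      exact hB
    · rintro ⟨i, j, hij, c⟩ B hB
      rw [Matrix.TransvectionStruct.toMatrix_mk]
      rcases zmod2 c with h | h
      · rw [h, Matrix.transvection_zero, one_mul]
        exact hB
      · rw [h]
        exact SS_transvec B hB i j hij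
    · intro M N _ _ hM hN B hB
      rw [mul_assoc]
      exact hM _ (hN _ hB)
  have := key 1 (SS_one h9 n)
  rwa [mul_one] at this

lemma flips {n : ℕ} {A : Matrix (Fin n) (Fin n) (ZMod 2)} {P : (Fin n → G) → Fin n → G}
    (hP : Par A P) (x : Fin n → G) (i : Fin n) (K : Finset (Fin n)) :
    P (fun k => if k ∈ K then -(x k) else x k) i =
      if (∑ k ∈ K, A i k) = 1 then -(P x i) else P x i := by
  induction K using Finset.induction_on with
  | empty => simp
  | insert a K ha ih =>
    have e : (fun k => if k ∈ insert a K then -(x k) else x k) =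
        Function.update (fun k => if k ∈ K then -(x k) else x k) a
          (-((fun k => if k ∈ K then -(x k) else x k) a)) := by
      funext k
      by_cases hk : k = a
      · subst hk
        simp [ha]
      · rw [Function.update_of_ne hk]
        simp [hk]
    rw [e, hP.2, ih, sum_insert ha]
    rcases zmod2 (A i a) with h1 | h1 <;> rcases zmod2 (∑ k ∈ K, A i k) with h2 | h2 <;>
      rw [h1, h2]
    · simp
    · simp
    · simp
    · rw [if_pos rfl, if_pos rfl, if_neg (by decide), neg_neg]

theorem l8 (h9 : StmL9) : StmL8 := by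
  intro n A hA P hc hp
  have hP : Par A P := ⟨hc, hp⟩
  obtain ⟨x, hx⟩ := SS_all h9 A hA P hP
  classical
  let δ : Fin n → ZMod 2 := fun i => if P x i = 1 then 0 else 1
  have hu : IsUnit A.det := isUnit_iff_ne_zero.2 hA
  let ε : Fin n → ZMod 2 := A⁻¹.mulVec δ
  have hε : A.mulVec ε = δ := by
    show A.mulVec (A⁻¹.mulVec δ) = δ
    rw [Matrix.mulVec_mulVec, Matrix.mul_nonsing_inv A hu, Matrix.one_mulVec]
  refine ⟨fun k => if k ∈ univ.filter (fun k => ε k = 1) then -(x k) else x k, fun i => ?_⟩
  rw [flips hP x i]
  have hs : ∑ k ∈ univ.filter (fun k => ε k = 1), A i k = δ i := by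
    rw [← hε, sum_filter]
    unfold Matrix.mulVec dotProduct
    refine sum_congr rfl fun k _ => ?_
    rcases zmod2 (ε k) with h | h
    · rw [h, mul_zero, if_neg (by decide)]
    · rw [h, mul_one, if_pos rfl]
  rw [hs]
  show (if (if P x i = 1 then (0 : ZMod 2) else 1) = 1 then -(P x i) else P x i) = 1
  by_cases h : P x i = 1
  · rw [if_pos h, if_neg (by decide)]
    exact h
  · rw [if_neg h, if_pos rfl]
    rcases hx i with h2 | h2
    · exact absurd h2 h
    · rw [h2, neg_neg]

end Pool.Agent.K3h24.LCM
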